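import Pool.Agent.H31.KMen

set_option autoImplicit false

open Pool.Agent.H31.KCov

theorem Pool.Agent.Results.MP_c24ba3_gt.Neg.result :
    ∃ (X : Type) (_ : TopologicalSpace X), T2Space X ∧
      (∃ τ : List (Set (Set X)) → Set (Set X),
        (∀ (l : List (Set (Set X))) (𝒰 : Set (Set X)), K 𝒰 →
          (τ (l ++ [𝒰])).Finite ∧ τ (l ++ [𝒰]) ⊆ 𝒰) ∧
        ∀ 𝒰 : ℕ → Set (Set X), (∀ n, K (𝒰 n)) → K (⋃ n, τ ((List.range (n + 1)).map 𝒰))) ∧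
      ¬ ∀ 𝒰 : ℕ → Set (Set X), (∀ n, K (𝒰 n)) →
        ∃ U : ℕ → Set X, (∀ n, U n ∈ 𝒰 n) ∧ K (Set.range U) :=
  ⟨X, inferInstance, inferInstance, strat, not_roth⟩
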